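import Pool.Agent.W759.TR.Defs

namespace Pool.Agent.W857.TR

open MeasureTheory Set
open Pool.Agent.W759.TR

variable {V : Type} [Countable V]

theorem mIsU (G : SimpleGraph V) (v : V) (c : Lab) (u : V) :
    MeasurableSet {U : V → Lab | IsU G U v c u} := by
  have hc : ∀ (x : V) (d : Lab), MeasurableSet {U : V → Lab | U x = d} := fun x d => by
    have h := (measurable_pi_apply (X := fun _ : V => Lab) x) (measurableSet_singleton d)
    exact h
  have h : {U : V → Lab | IsU G U v c u} = {_U : V → Lab | G.Adj v u} ∩ ({U | U u = c} ∩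
      ⋂ u', {U : V → Lab | G.Adj v u' → U u' = c → u' = u}) := by
    ext U
    simp only [IsU, mem_setOf_eq, mem_inter_iff, mem_iInter]
  rw [h]
  refine (MeasurableSet.const _).inter ((hc u c).inter (MeasurableSet.iInter fun u' => ?_))
  by_cases h1 : G.Adj v u'
  · by_cases h2 : u' = u
    · have : {U : V → Lab | G.Adj v u' → U u' = c → u' = u} = univ := by
        ext U; simp [h2]
      rw [this]; exact MeasurableSet.univ
    · have : {U : V → Lab | G.Adj v u' → U u' = c → u' = u} = {U : V → Lab | U u' = c}ᶜ := by
        ext U; simp [h1, h2]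
      rw [this]; exact (hc u' c).compl
  · have : {U : V → Lab | G.Adj v u' → U u' = c → u' = u} = univ := by
      ext U; simp [h1]
    rw [this]; exact MeasurableSet.univ

theorem mLink (G : SimpleGraph V) (w : List Lab) (j : ℕ) (u v : V) :
    MeasurableSet {U : V → Lab | Link G U w j u v} :=
  (mIsU G u (w.getD (j + 1) 0) v).inter (mIsU G v (w.getD j 0) u)

theorem mFirst (G : SimpleGraph V) (C : Set V) (w : List Lab) : ∀ (j : ℕ) (v : V) (x : V × ℕ),
    MeasurableSet {U : V → Lab | first G C U w j v = x}
  | 0, v, x => by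
    have : {U : V → Lab | first G C U w 0 v = x} = {_U : V → Lab | (v, 0) = x} := by
      ext U; simp only [mem_setOf_eq, first]
    rw [this]; exact MeasurableSet.const _
  | j + 1, v, x => by
    have ih := mFirst G C w j
    have h : {U : V → Lab | first G C U w (j + 1) v = x} =
        (⋃ u, {_U : V → Lab | u ∈ C ∧ v ∈ C} ∩ ({U | Link G U w j u v} ∩
          {U | first G C U w j u = x})) ∪
        ((⋃ u, {_U : V → Lab | u ∈ C ∧ v ∈ C} ∩ {U | Link G U w j u v})ᶜ ∩
          {_U : V → Lab | (v, j + 1) = x}) := by
      ext U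
      simp only [mem_setOf_eq, mem_union, mem_inter_iff, mem_iUnion, mem_compl_iff]
      by_cases hex : ∃ u, u ∈ C ∧ v ∈ C ∧ Link G U w j u v
      · have hf : first G C U w (j + 1) v = first G C U w j hex.choose := by
          rw [first]; exact dif_pos hex
        have hs := hex.choose_spec
        rw [hf]
        constructor
        · intro he
          exact Or.inl ⟨hex.choose, ⟨hs.1, hs.2.1⟩, hs.2.2, he⟩
        · rintro (⟨u, _, hl, he⟩ | ⟨hn, _⟩)
          · have : hex.choose = u := hl.2.2.2 _ hs.2.2.2.1 hs.2.2.2.2.1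
            rw [this]; exact he
          · exact absurd ⟨hex.choose, ⟨hs.1, hs.2.1⟩, hs.2.2⟩ hn
      · have hf : first G C U w (j + 1) v = (v, j + 1) := by
          rw [first]; exact dif_neg hex
        rw [hf]
        constructor
        · intro he
          refine Or.inr ⟨?_, he⟩
          rintro ⟨u, hu, hl⟩
          exact hex ⟨u, hu.1, hu.2, hl⟩
        · rintro (⟨u, hu, hl, _⟩ | ⟨_, he⟩)
          · exact absurd ⟨u, hu.1, hu.2, hl⟩ hex
          · exact he
    rw [h]
    refine MeasurableSet.union (MeasurableSet.iUnion fun u => ?_) (MeasurableSet.inter ?_ ?_)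
    · exact (MeasurableSet.const _).inter ((mLink G w j u v).inter (ih u x))
    · exact (MeasurableSet.iUnion fun u => (MeasurableSet.const _).inter (mLink G w j u v)).compl
    · exact MeasurableSet.const _

theorem t2 : T2 := by
  intro V _ G C
  refine measurable_pi_iff.2 fun v => ?_
  refine Measurable.prodMk ((measurable_pi_apply v).comp measurable_fst) ?_
  refine measurable_pi_iff.2 fun q => ?_
  refine measurable_to_countable' fun b => ?_
  have h : (fun ω : Env V => ω.2 (q.1, first G C ω.1 q.1.2 q.2 v) q.2) ⁻¹' {b} =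
      ⋃ x : V × ℕ, ({ω : Env V | first G C ω.1 q.1.2 q.2 v = x} ∩
        {ω : Env V | ω.2 (q.1, x) q.2 = b}) := by
    ext ω
    simp only [mem_preimage, mem_singleton_iff, mem_iUnion, mem_inter_iff, mem_setOf_eq]
    constructor
    · intro hb
      exact ⟨_, rfl, hb⟩
    · rintro ⟨x, hx, hb⟩
      rw [hx]; exact hb
  rw [h]
  refine MeasurableSet.iUnion fun x => MeasurableSet.inter ?_ ?_
  · exact measurable_fst (mFirst G C q.1.2 q.2 v x)
  · have hm : Measurable (fun ω : Env V => ω.2 (q.1, x) q.2) :=
      (measurable_pi_apply q.2).comp ((measurable_pi_apply (q.1, x)).comp measurable_snd)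
    exact hm (measurableSet_singleton b)

theorem measurableSet_EL (V : Type) [Countable V] (G : SimpleGraph V) (N : ℕ) (w : List Lab)
    (γ : ℕ → V) : MeasurableSet (EL G N w γ) := by
  have hm : Measurable (fun (x : V → S1) => fun v => (x v).1) :=
    measurable_pi_iff.2 fun v => measurable_fst.comp (measurable_pi_apply v)
  have h : EL G N w γ = ⋂ j : ℕ, {x : V → S1 | j + 1 < N →
      Link G (fun v => (x v).1) w j (γ j) (γ (j + 1))} := by
    ext x
    simp only [EL, mem_setOf_eq, mem_iInter]
  rw [h]
  refine MeasurableSet.iInter fun j => ?_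
  by_cases hj : j + 1 < N
  · have : {x : V → S1 | j + 1 < N → Link G (fun v => (x v).1) w j (γ j) (γ (j + 1))} =
        (fun (x : V → S1) => fun v => (x v).1) ⁻¹' {U : V → Lab | Link G U w j (γ j) (γ (j + 1))} := by
      ext x; simp only [mem_setOf_eq, mem_preimage, hj, forall_const]
    rw [this]
    exact hm (mLink G w j (γ j) (γ (j + 1)))
  · have : {x : V → S1 | j + 1 < N → Link G (fun v => (x v).1) w j (γ j) (γ (j + 1))} = univ := by
      ext x; simp only [mem_setOf_eq, mem_univ, iff_true]; intro h; exact absurd h hj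
    rw [this]; exact MeasurableSet.univ

end Pool.Agent.W857.TR
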